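import Pool.Agent.MWFE.StmtsA
import Pool.Agent.Helper11_MWE.PLMb

/-!
# Rearrangement of a factor of heavy letters (row PHX of squad MWFE)

Problem MP_23468a_al.
-/

set_option autoImplicit false

namespace Pool.Agent.MWFE.H81

open Pool.Agent.Helper14_MV Pool.Agent.Helper2_MV Pool.Agent.MVD
open Pool.Agent.MWE (Can XX fxy dxy dx dy up cp L4 pr Xs xl isx Fs nd nr)
open Pool.Agent.MWGR (cb)

theorem hw_mult {w : List ℕ} {v : ℕ} (h : Hw w v) : 2 ≤ w.count v := by
  rcases h with h | ⟨a, G, b, e, -, h⟩
  · omega
  · rw [e, List.count_append, List.count_append]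
    omega

theorem cnt_perm {p q Y D : List ℕ} (hp : Y.Perm D) (d : ℕ) :
    (p ++ (D ++ q)).count d = (p ++ (Y ++ q)).count d := by
  simp only [List.count_append, hp.count_eq]

/-- the factor, extended by `D` -/
theorem hw_ext {p1 p2 q1 q2 Y D G : List ℕ} {h : ℕ} (hp : Y.Perm D)
    (hY : ∀ d ∈ Y, 2 ≤ ((p1 ++ p2) ++ (Y ++ (q1 ++ q2))).count d)
    (hG : Mult G ((p1 ++ p2) ++ (Y ++ (q1 ++ q2)))) (h2 : ∀ d ∈ p2, d ∈ G)
    (h1 : ∀ d ∈ q1, d ∈ G) (hc : 2 ≤ (p2 ++ (Y ++ q1)).count h) :
    Hw ((p1 ++ p2) ++ (D ++ (q1 ++ q2))) h := by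
  refine Or.inr ⟨p1, p2 ++ (D ++ q1), q2, ?_, ?_, ?_⟩
  · simp only [List.append_assoc]
  · intro d hd
    rw [cnt_perm hp]
    rcases List.mem_append.1 hd with hd | hd
    · exact hG d (h2 d hd)
    · rcases List.mem_append.1 hd with hd | hd
      · exact hY d (hp.mem_iff.2 hd)
      · exact hG d (h1 d hd)
  · rw [cnt_perm hp]
    exact hc

theorem hw_perm {p q Y D : List ℕ} {h : ℕ} (hp : Y.Perm D)
    (hY : ∀ d ∈ Y, 2 ≤ (p ++ (Y ++ q)).count d) (hw : Hw (p ++ (Y ++ q)) h) :
    Hw (p ++ (D ++ q)) h := by
  rcases hw with hw | ⟨a, G, b, e, hG, hc⟩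
  · exact Or.inl (by rw [cnt_perm hp]; exact hw)
  rcases List.append_eq_append_iff.1 e with ⟨c', e1, e2⟩ | ⟨p2, e1, e2⟩
  · -- the factor begins behind `p`
    rcases List.append_eq_append_iff.1 e2 with ⟨c2, e3, e4⟩ | ⟨c2, e3, e4⟩
    · -- in `q`
      refine Or.inr ⟨p ++ (D ++ c2), G, b, ?_, ?_, hc⟩
      · rw [e4]
        simp only [List.append_assoc]
      · intro d hd
        rw [cnt_perm hp]
        exact hG d hd
    · -- it begins in `Y`
      rcases List.append_eq_append_iff.1 e4 with ⟨c3, e5, e6⟩ | ⟨c3, e5, e6⟩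
      · -- it ends in `Y`
        have := hw_ext (p1 := p) (p2 := []) (q1 := []) (q2 := q) (G := G) (h := h) hp
          (by simpa using hY) (by simpa using hG) (by simp) (by simp)
          (by
            rw [e3, e5]
            simp only [List.count_append, List.nil_append, List.append_nil]
            omega)
        simpa using this
      · -- it ends in `q`
        subst e6
        have := hw_ext (p1 := p) (p2 := []) (q1 := c3) (q2 := b) (G := G) (h := h) hp
          (by simpa using hY) (by simpa using hG) (by simp)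
          (by
            intro d hd
            rw [e5]
            exact List.mem_append_right _ hd)
          (by
            rw [e5] at hc
            rw [e3]
            simp only [List.count_append, List.nil_append] at hc ⊢
            omega)
        simpa using this
  · -- the factor begins in `p`
    rcases List.append_eq_append_iff.1 e2 with ⟨c2, e3, e4⟩ | ⟨c2, e3, e4⟩
    · -- it ends in `p`
      refine Or.inr ⟨a, G, c2 ++ (D ++ q), ?_, ?_, hc⟩
      · rw [e1, e3]
        simp only [List.append_assoc]
      · intro d hd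
        rw [cnt_perm hp]
        exact hG d hd
    · rcases List.append_eq_append_iff.1 e4 with ⟨c3, e5, e6⟩ | ⟨c3, e5, e6⟩
      · -- it ends in `q`
        subst e1
        subst e6
        refine hw_ext (G := G) hp hY hG ?_ ?_ ?_
        · intro d hd
          rw [e3]
          exact List.mem_append_left _ hd
        · intro d hd
          rw [e3, e5]
          exact List.mem_append_right _ (List.mem_append_right _ hd)
        · rw [e3, e5] at hc
          exact hc
      · -- it ends in `Y`
        subst e1
        have := hw_ext (p1 := a) (p2 := p2) (q1 := []) (q2 := q) (G := G) (h := h) hp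
          (by simpa using hY) (by simpa using hG)
          (by
            intro d hd
            rw [e3]
            exact List.mem_append_left _ hd) (by simp)
          (by
            rw [e3] at hc
            rw [e5]
            simp only [List.count_append, List.append_nil] at hc ⊢
            omega)
        simpa using this

theorem phx (h1 : HhxStmt) : PhxStmt := by
  intro n β hz p q Y Y' hp hH
  have hm : ∀ d ∈ Y, 2 ≤ (p ++ (Y ++ q)).count d := fun d hd => hw_mult (hH d hd)
  refine Pool.Agent.MWE.H11.plm (fun _ => false)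
    (fun D => RR β (p ++ (Y ++ q)) (p ++ (D ++ q))) Y Y' hp (by simp) ?_ (RR.refl _)
  intro A C a b hA _ _ _ hE
  refine β.trans hE ?_
  have ha : Hw (p ++ ((A ++ a :: b :: C) ++ q)) a :=
    hw_perm hA.symm hm (hH a (hA.mem_iff.1 (by simp)))
  have hb : Hw (p ++ ((A ++ a :: b :: C) ++ q)) b :=
    hw_perm hA.symm hm (hH b (hA.mem_iff.1 (by simp)))
  have e : ∀ x y : ℕ, p ++ ((A ++ x :: y :: C) ++ q) = (p ++ A) ++ x :: y :: (C ++ q) := by
    intro x y
    simp only [List.append_assoc, List.cons_append]
  rw [e] at ha hb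
  have := h1 n β hz (p ++ A) (C ++ q) a b ha hb
  rw [← e, ← e] at this
  exact this

end Pool.Agent.MWFE.H81
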